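import Pool.Agent.Helper8_HK.Stmt2

/-! Module CLA of squad HK: claim A. -/

namespace Pool.Agent.HK.H54

open MvPolynomial

lemma comp_coeff {r : ℕ} {k : Type} [Field k] (d : ZMod r → ℕ) (P : MvPolynomial (Ix r) k)
    (α : Ix r →₀ ℕ) (h : α ∈ (comp d P).support) : α ∈ P.support ∧ ∀ s, ld α s = d s := by
  classical
  rw [MvPolynomial.mem_support_iff, comp, MvPolynomial.coeff_sum] at h
  obtain ⟨β, hβ, hne⟩ := Finset.exists_ne_zero_of_sum_ne_zero h
  rw [MvPolynomial.coeff_monomial] at hne
  by_cases hc : β = α
  · subst hc
    exact ⟨(Finset.mem_filter.1 hβ).1, (Finset.mem_filter.1 hβ).2⟩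
  · exact absurd (if_neg hc) hne

lemma comp_eq_zero {r : ℕ} {k : Type} [Field k] (d : ZMod r → ℕ) (P : MvPolynomial (Ix r) k)
    (h : ∀ α ∈ P.support, ¬ ∀ s, ld α s = d s) : comp d P = 0 := by
  by_contra hne
  obtain ⟨α, hα⟩ := MvPolynomial.support_nonempty.2 hne
  obtain ⟨h1, h2⟩ := comp_coeff d P α hα
  exact h α h1 h2

theorem cla (hTAY : TAYStmt) (hSTR : STRStmt) (hCHN : CHNStmt) : CLAStmt := by
  classical
  intro p r _ _ k _ _ h2r P hT hinv t ht m htm
  have hp : p.Prime := Fact.out
  have hp2 : 2 ≤ p := hp.two_le
  obtain ⟨-, -, -, -, -, -, -, hT8⟩ := hTAY r k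
  have hge : ∀ (t : ZMod r → ℕ), (∀ i, t i = 1 ∨ t i = 2) → ∀ i, t i ≤ p * t (i + 1) := by
    intro t ht i
    have h1 : t i ≤ 2 := by rcases ht i with h | h <;> omega
    have h2 : 1 ≤ t (i + 1) := by rcases ht (i + 1) with h | h <;> omega
    calc t i ≤ 2 * 1 := by omega
      _ ≤ p * t (i + 1) := Nat.mul_le_mul hp2 h2
  by_cases h0 : dt p t m = 0
  · by_contra hne
    obtain ⟨β, hβ⟩ := MvPolynomial.support_nonempty.2 hne
    obtain ⟨α, hα, hld⟩ := hT8 _ _ β hβ
    have h3 := hld m
    rw [(comp_coeff _ _ α hα).2 m, h0, Finsupp.single_eq_same] at h3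
    omega
  · have hpos : 1 ≤ dt p t m := Nat.one_le_iff_ne_zero.2 h0
    have hD : (fun s => (dt p t s - (if s = m then 1 else 0)) +
        (Finsupp.single m 1 : ZMod r →₀ ℕ) s) = dt p t := by
      funext s
      by_cases hs : s = m
      · subst hs
        simp only [if_true, Finsupp.single_eq_same]
        omega
      · simp [hs]
    have h := hSTR r k P hinv (fun s => dt p t s - (if s = m then 1 else 0))
      {Finsupp.single m 1} (by
        rw [Finset.mem_singleton]
        intro h
        have := DFunLike.congr_fun h m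
        simp at this) (by
        intro κ hκ0 hκ1
        rw [Finset.mem_singleton] at hκ1
        apply comp_eq_zero
        intro α hα hcon
        obtain ⟨t', ht', hld⟩ := hT α hα
        have hdt : ∀ i, dt p t' i = (dt p t i - (if i = m then 1 else 0)) + κ i := by
          intro i
          have h1 := hld i
          have h2 := hcon i
          unfold dt at h2 ⊢
          omega
        have hle : ∀ i, dt p t i ≤ dt p t' i + (if i = m then 1 else 0) := by
          intro i
          rw [hdt i]
          split_ifs <;> omega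
        rcases (hCHN p r hp h2r t t' ht ht' m).1 hle with h | h
        · subst h
          apply hκ1
          ext i
          have h1 := hdt i
          by_cases hi : i = m
          · subst hi
            simp only [if_true, Finsupp.single_eq_same] at h1 ⊢
            omega
          · simp only [if_neg hi] at h1
            rw [Finsupp.single_apply, if_neg (Ne.symm hi)]
            omega
        · omega)
    rw [Finset.sum_singleton, hD] at h
    exact h

end Pool.Agent.HK.H54
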