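import Pool.Agent.Helper8_HK.Stmt2

/-! Module KEW of squad HK: vanishing of a component from claims B and C. -/

namespace Pool.Agent.HK.H54

open MvPolynomial

section

variable (r : ℕ) (k : Type) [Field k]

/-- The field of rational functions in all variables. -/
abbrev RF : Type := FractionRing (MvPolynomial (Ix r) k)

/-- Split off the variables of level `m`. -/
noncomputable def spl (m : ZMod r) : MvPolynomial (Ix r) k →+* MvPolynomial (Fin 4) (RF r k) :=
  MvPolynomial.eval₂Hom
    ((MvPolynomial.C (σ := Fin 4)).comp ((algebraMap (MvPolynomial (Ix r) k) (RF r k)).comp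
      (MvPolynomial.C (σ := Ix r))))
    (fun j : Ix r => if j.2 = m then MvPolynomial.X j.1
      else MvPolynomial.C (algebraMap (MvPolynomial (Ix r) k) (RF r k) (MvPolynomial.X j)))

lemma spl_inj (m : ZMod r) (P : MvPolynomial (Ix r) k) (h : spl r k m P = 0) : P = 0 := by
  have hc : ((MvPolynomial.eval (fun i : Fin 4 =>
      algebraMap (MvPolynomial (Ix r) k) (RF r k) (MvPolynomial.X (i, m)))).comp (spl r k m)) =
      algebraMap (MvPolynomial (Ix r) k) (RF r k) := by
    apply MvPolynomial.ringHom_ext
    · intro c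
      simp [spl]
    · intro j
      simp only [spl, RingHom.comp_apply, MvPolynomial.coe_eval₂Hom, MvPolynomial.eval₂_X]
      split_ifs with hj
      · rw [MvPolynomial.eval_X, ← hj]
      · rw [MvPolynomial.eval_C]
  have h2 : algebraMap (MvPolynomial (Ix r) k) (RF r k) P = 0 := by
    rw [← hc, RingHom.comp_apply, h, map_zero]
  exact (IsFractionRing.injective (MvPolynomial (Ix r) k) (RF r k)) (by rw [h2, map_zero])

variable {r k}

/-- The exponent at level `m`. -/
noncomputable def lvl (m : ZMod r) (α : Ix r →₀ ℕ) : Fin 4 →₀ ℕ :=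
  Finsupp.equivFunOnFinite.symm (fun i => α (i, m))

lemma spl_monomial [NeZero r] (m : ZMod r) (α : Ix r →₀ ℕ) (c : k) :
    ∃ e : RF r k, spl r k m (monomial α c) = monomial (lvl m α) e := by
  classical
  have h1 : spl r k m (monomial α c) =
      MvPolynomial.C (algebraMap (MvPolynomial (Ix r) k) (RF r k) (C c)) *
        ∏ j : Ix r, (if j.2 = m then MvPolynomial.X j.1
      else MvPolynomial.C (algebraMap (MvPolynomial (Ix r) k) (RF r k) (MvPolynomial.X j))) ^ α j := by
    rw [spl, MvPolynomial.coe_eval₂Hom, MvPolynomial.eval₂_monomial]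
    rw [Finsupp.prod_fintype _ _ (fun j => pow_zero _)]
    rfl
  have h2 : ∏ j : Ix r, (if j.2 = m then (MvPolynomial.X j.1 : MvPolynomial (Fin 4) (RF r k))
      else MvPolynomial.C (algebraMap (MvPolynomial (Ix r) k) (RF r k) (MvPolynomial.X j))) ^ α j =
      (∏ i : Fin 4, (MvPolynomial.X i : MvPolynomial (Fin 4) (RF r k)) ^ α (i, m)) *
      MvPolynomial.C (∏ j ∈ (Finset.univ : Finset (Ix r)).filter (fun j => ¬ j.2 = m),
        (algebraMap (MvPolynomial (Ix r) k) (RF r k) (MvPolynomial.X j)) ^ α j) := by
    rw [← Finset.prod_filter_mul_prod_filter_not (Finset.univ : Finset (Ix r)) (fun j => j.2 = m)]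
    congr 1
    · symm
      refine Finset.prod_nbij' (fun i : Fin 4 => ((i, m) : Ix r)) (fun j : Ix r => j.1)
        ?_ ?_ ?_ ?_ ?_
      · intro i _; simp
      · intro j _; simp
      · intro i _; rfl
      · rintro ⟨i, s⟩ hj
        have : s = m := by simpa using hj
        simp [this]
      · intro i _
        simp
    · rw [map_prod]
      refine Finset.prod_congr rfl fun j hj => ?_
      have : ¬ j.2 = m := by simpa using hj
      rw [if_neg this, map_pow]
  refine ⟨algebraMap (MvPolynomial (Ix r) k) (RF r k) (C c) *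
    ∏ j ∈ (Finset.univ : Finset (Ix r)).filter (fun j => ¬ j.2 = m),
        (algebraMap (MvPolynomial (Ix r) k) (RF r k) (MvPolynomial.X j)) ^ α j, ?_⟩
  rw [h1, h2, MvPolynomial.monomial_eq, Finsupp.prod_fintype _ _ (fun j => pow_zero _), map_mul]
  have h3 : ∀ i : Fin 4, lvl m α i = α (i, m) := fun i => rfl
  simp only [h3]
  ring

lemma spl_support [NeZero r] (m : ZMod r) (P : MvPolynomial (Ix r) k) (β : Fin 4 →₀ ℕ)
    (h : β ∈ (spl r k m P).support) : ∃ α ∈ P.support, ∀ i, β i = α (i, m) := by
  classical
  rw [MvPolynomial.mem_support_iff, ← MvPolynomial.support_sum_monomial_coeff P, map_sum,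
    MvPolynomial.coeff_sum] at h
  obtain ⟨α, hα, hne⟩ := Finset.exists_ne_zero_of_sum_ne_zero h
  obtain ⟨e, he⟩ := spl_monomial m α (coeff α P)
  rw [he, MvPolynomial.coeff_monomial] at hne
  refine ⟨α, hα, fun i => ?_⟩
  by_cases hc : lvl m α = β
  · rw [← hc]; rfl
  · exact absurd (if_neg hc) hne

lemma spl_shift (m : ZMod r) (P : MvPolynomial (Ix r) k) :
    MvPolynomial.aeval (fun i : Fin 4 => (X i + 1 : MvPolynomial (Fin 4) (RF r k)))
      (spl r k m P) =
    spl r k m (MvPolynomial.aeval
      (fun j : Ix r => X j + C ((fun s : ZMod r => if s = m then (1 : k) else 0) j.2)) P) := by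
  have : ((MvPolynomial.aeval (fun i : Fin 4 => (X i + 1 : MvPolynomial (Fin 4) (RF r k))) :
      MvPolynomial (Fin 4) (RF r k) →ₐ[RF r k] MvPolynomial (Fin 4) (RF r k)).toRingHom).comp
      (spl r k m) = (spl r k m).comp ((MvPolynomial.aeval
      (fun j : Ix r => X j + C ((fun s : ZMod r => if s = m then (1 : k) else 0) j.2)) :
      MvPolynomial (Ix r) k →ₐ[k] MvPolynomial (Ix r) k).toRingHom) := by
    apply MvPolynomial.ringHom_ext
    · intro c
      simp [spl, MvPolynomial.algebraMap_eq]
    · intro j
      by_cases hj : j.2 = m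
      · simp [spl, hj]
      · simp [spl, hj, MvPolynomial.algebraMap_eq]
  exact DFunLike.congr_fun this P

end

theorem kew (hTAY : TAYStmt) (hWLL : WLLStmt) : KEWStmt := by
  classical
  intro p r _ _ k _ _ Q m hR hd hp1 h11
  have hp : p.Prime := Fact.out
  have hp2 : 2 ≤ p := hp.two_le
  obtain ⟨hT1, hT2, hT3, hT4, hT5, hT6, hT7, hT8⟩ := hTAY r k
  have hcomp : ∀ a b : ℕ, ∀ P : MvPolynomial (Ix r) k,
      DD (Finsupp.single m a) (DD (Finsupp.single m b) P) =
        C (((a + b).choose a : ℕ) : k) * DD (Finsupp.single m (a + b)) P := by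
    intro a b P
    rw [hT5, ← Finsupp.single_add]
    congr 2
    rw [Finset.prod_eq_single m]
    · simp
    · intro s _ hs
      simp [Ne.symm hs]
    · intro h; exact absurd (Finset.mem_univ m) h
  have hDD0 : ∀ κ : ZMod r →₀ ℕ, DD κ (0 : MvPolynomial (Ix r) k) = 0 := by
    intro κ; simp [DD]
  have hcancel : ∀ (c : ℕ) (P : MvPolynomial (Ix r) k), ¬ p ∣ c → C ((c : ℕ) : k) * P = 0 →
      P = 0 := by
    intro c P hc h
    rcases mul_eq_zero.1 h with h | h
    · exfalso
      rw [MvPolynomial.C_eq_zero, CharP.cast_eq_zero_iff k p] at h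
      exact hc h
    · exact h
  have hsmall : ∀ j : ℕ, 1 ≤ j → j < p →
      DD (Finsupp.single m 1) (DD (Finsupp.single m j) Q) = 0 ∧
      (2 ≤ j → DD (Finsupp.single m j) Q = 0) := by
    intro j h1
    induction j, h1 using Nat.le_induction with
    | base => intro _; exact ⟨h11, fun h => absurd h (by norm_num)⟩
    | succ j hj ih =>
      intro hlt
      obtain ⟨ih1, ih2⟩ := ih (by omega)
      have hz : DD (Finsupp.single m (j + 1)) Q = 0 := by
        rw [hcomp 1 j] at ih1
        have e : ((1 + j).choose 1) = j + 1 := by rw [Nat.choose_one_right]; ring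
        rw [e, add_comm 1 j] at ih1
        refine hcancel (j + 1) _ (fun hdv => ?_) ih1
        exact absurd (Nat.le_of_dvd (by omega) hdv) (by omega)
      exact ⟨by rw [hz, hDD0], fun _ => hz⟩
  have hbig : ∀ j : ℕ, 2 ≤ j → DD (Finsupp.single m j) Q = 0 := by
    intro j hj
    by_cases h1 : j < p
    · exact (hsmall j (by omega) h1).2 hj
    · by_cases h2 : j < 2 * p
      · obtain ⟨b, rfl⟩ : ∃ b, j = b + p := ⟨j - p, by omega⟩
        have hb : b < p := by omega
        have h3 := hcomp b p Q
        rw [hp1, hDD0] at h3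
        refine hcancel _ _ (fun hdv => ?_) h3.symm
        have hl := Choose.choose_modEq_choose_mod_mul_choose_div_nat (n := b + p) (k := b) (p := p)
        have e1 : (b + p) % p = b := by rw [Nat.add_mod_right, Nat.mod_eq_of_lt hb]
        have e2 : (b + p) / p = 1 := by
          rw [Nat.add_div_right _ hp.pos, Nat.div_eq_of_lt hb]
        rw [e1, e2, Nat.mod_eq_of_lt hb, Nat.div_eq_of_lt hb, Nat.choose_self,
          Nat.choose_zero_right] at hl
        have h4 : p ∣ 1 := by
          have := (Nat.modEq_zero_iff_dvd.2 hdv).symm.trans hl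
          exact Nat.modEq_zero_iff_dvd.1 (by simpa using this.symm)
        exact hp.one_lt.ne' (Nat.dvd_one.1 h4)
      · by_contra hne
        obtain ⟨β, hβ⟩ := MvPolynomial.support_nonempty.2 hne
        obtain ⟨α, hα, hld⟩ := hT8 _ _ β hβ
        have h3 := hld m
        rw [hd α hα, Finsupp.single_eq_same] at h3
        omega
  have hsum : MvPolynomial.aeval
      (fun j : Ix r => X j + C ((fun s : ZMod r => if s = m then (1 : k) else 0) j.2)) Q =
      Q + DD (Finsupp.single m 1) Q := by
    rw [hT1 (fun s : ZMod r => if s = m then (1 : k) else 0)]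
    have hterm : ∀ κ : ZMod r →₀ ℕ, κ ≠ 0 → κ ≠ Finsupp.single m 1 →
        C (∏ s : ZMod r, (if s = m then (1 : k) else 0) ^ κ s) * DD κ Q = 0 := by
      intro κ h0 h1
      by_cases hκ : κ = Finsupp.single m (κ m)
      · have h2 : 2 ≤ κ m := by
          rcases Nat.lt_or_ge (κ m) 2 with h | h
          · exfalso
            interval_cases hh : κ m
            · exact h0 (by rw [hκ]; simp)
            · exact h1 hκ
          · exact h
        have h3 := hbig (κ m) h2
        rw [← hκ] at h3
        rw [h3, mul_zero]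
      · have : ∃ s, s ≠ m ∧ κ s ≠ 0 := by
          by_contra hcon
          push Not at hcon
          apply hκ
          ext s
          by_cases hs : s = m
          · subst hs; simp
          · rw [hcon s hs]; simp [Ne.symm hs]
        obtain ⟨s, hs, hs2⟩ := this
        have : ∏ s : ZMod r, (if s = m then (1 : k) else 0) ^ κ s = 0 := by
          apply Finset.prod_eq_zero (Finset.mem_univ s)
          rw [if_neg hs, zero_pow hs2]
        rw [this]; simp
    have hne : (0 : ZMod r →₀ ℕ) ≠ Finsupp.single m 1 := by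
      intro h
      have := DFunLike.congr_fun h m
      simp at this
    have h2 : ∑ κ ∈ (tay Q).support,
        C (∏ s : ZMod r, (fun s : ZMod r => if s = m then (1 : k) else 0) s ^ κ s) * DD κ Q =
        ∑ κ ∈ ({0, Finsupp.single m 1} : Finset (ZMod r →₀ ℕ)),
        C (∏ s : ZMod r, (fun s : ZMod r => if s = m then (1 : k) else 0) s ^ κ s) * DD κ Q := by
      set U := (tay Q).support ∪ ({0, Finsupp.single m 1} : Finset (ZMod r →₀ ℕ)) with hU
      have hA : (tay Q).support ⊆ U := Finset.subset_union_left
      have hB : ({0, Finsupp.single m 1} : Finset (ZMod r →₀ ℕ)) ⊆ U := Finset.subset_union_right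
      refine (Finset.sum_subset hA ?_).trans (Finset.sum_subset hB ?_).symm
      · intro κ _ hκ
        have : DD κ Q = 0 := by
          simpa [DD, MvPolynomial.mem_support_iff] using hκ
        rw [this, mul_zero]
      · intro κ _ hκ
        simp only [Finset.mem_insert, Finset.mem_singleton, not_or] at hκ
        exact hterm κ hκ.1 hκ.2
    rw [h2, Finset.sum_pair hne]
    have h3 : ∏ s : ZMod r, (fun s : ZMod r => if s = m then (1 : k) else 0) s ^
        (Finsupp.single m 1 : ZMod r →₀ ℕ) s = 1 := by
      apply Finset.prod_eq_one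
      intro s _
      by_cases hs : s = m
      · simp [hs]
      · simp [Ne.symm hs]
    rw [h3, hT4]
    simp
  have hy := hWLL (RF r k) (spl r k m Q) (p - 1) (2 * p - 1) ?_ ?_ (by omega)
  · exact spl_inj r k m Q hy
  · intro β hβ
    obtain ⟨α, hα, hαβ⟩ := spl_support m Q β hβ
    refine ⟨fun i => ?_, ?_⟩
    · rw [hαβ i]
      have := hR α hα (i, m)
      omega
    · rw [← hd α hα]
      exact Finset.sum_congr rfl fun i _ => hαβ i
  · intro β hβ
    rw [spl_shift, hsum, map_add, add_sub_cancel_left] at hβ
    obtain ⟨α, hα, hαβ⟩ := spl_support m _ β hβ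
    obtain ⟨α', hα', hld⟩ := hT8 _ _ α hα
    have h3 := hld m
    rw [hd α' hα', Finsupp.single_eq_same] at h3
    have h4 : ∑ i, β i = ld α m := Finset.sum_congr rfl fun i _ => hαβ i
    rw [h4]
    exact h3.symm

end Pool.Agent.HK.H54
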