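import Pool.Agent.Helper8_HK.Stmt2

/-! Module TUP of squad HK: the support of `P`. -/

namespace Pool.Agent.HK.H54

open MvPolynomial

/-- The cyclic base `p` sum. -/
def Sg (p : ℕ) {r : ℕ} (d : ZMod r → ℕ) (i : ZMod r) : ℕ :=
  ∑ t ∈ Finset.range r, p ^ t * d (i + (t : ZMod r))

lemma Sg_rec (p : ℕ) {r : ℕ} (d : ZMod r → ℕ) (i : ZMod r) :
    Sg p d i + p ^ r * d i = p * Sg p d (i + 1) + d i := by
  have h1 : ∑ t ∈ Finset.range (r + 1), p ^ t * d (i + (t : ZMod r)) =
      Sg p d i + p ^ r * d i := by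
    rw [Finset.sum_range_succ]
    simp [Sg]
  have h2 : ∑ t ∈ Finset.range (r + 1), p ^ t * d (i + (t : ZMod r)) =
      p * Sg p d (i + 1) + d i := by
    rw [Finset.sum_range_succ']
    simp only [pow_zero, Nat.cast_zero, add_zero, one_mul, Sg, Finset.mul_sum]
    congr 1
    refine Finset.sum_congr rfl fun t _ => ?_
    have : i + ((t + 1 : ℕ) : ZMod r) = i + 1 + (t : ZMod r) := by push_cast; ring
    rw [this]
    ring
  rw [← h1, h2]

lemma Sg_zero (p : ℕ) {r : ℕ} [NeZero r] (d : ZMod r → ℕ) :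
    Sg p d 0 = ∑ s : ZMod r, d s * p ^ s.val := by
  unfold Sg
  refine Finset.sum_nbij' (fun t : ℕ => (t : ZMod r)) (fun s : ZMod r => s.val) ?_ ?_ ?_ ?_ ?_
  · intro t _; exact Finset.mem_univ _
  · intro s _; exact Finset.mem_range.2 (ZMod.val_lt s)
  · intro t ht
    have ht' : t < r := Finset.mem_range.1 ht
    simp [ZMod.val_natCast, Nat.mod_eq_of_lt ht']
  · intro s _
    simp
  · intro t ht
    have ht' : t < r := Finset.mem_range.1 ht
    simp [ZMod.val_natCast, Nat.mod_eq_of_lt ht', mul_comm]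

lemma Sg_add (p : ℕ) {r : ℕ} (d e : ZMod r → ℕ) (i : ZMod r) :
    Sg p (fun s => d s + e s) i = Sg p d i + Sg p e i := by
  simp [Sg, mul_add, Finset.sum_add_distrib]

lemma geo (p : ℕ) (hp : 0 < p) (r : ℕ) : (∑ t ∈ Finset.range r, p ^ t) * (p - 1) + 1 = p ^ r := by
  induction r with
  | zero => simp
  | succ n ih =>
    obtain ⟨a, rfl⟩ : ∃ a, p = a + 1 := ⟨p - 1, by omega⟩
    have h : (∑ t ∈ Finset.range n, (a + 1) ^ t) * a + 1 = (a + 1) ^ n := by
      simpa using ih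
    rw [Finset.sum_range_succ, Nat.add_sub_cancel, add_mul, pow_succ]
    generalize (a + 1) ^ n = z at *
    linarith

lemma Sg_const (p : ℕ) {r : ℕ} (hp : 0 < p) (c : ℕ) (i : ZMod r) :
    Sg p (fun _ => c * (p - 1)) i = c * (p ^ r - 1) := by
  unfold Sg
  rw [← Finset.sum_mul]
  have h := geo p hp r
  calc (∑ t ∈ Finset.range r, p ^ t) * (c * (p - 1))
      = c * ((∑ t ∈ Finset.range r, p ^ t) * (p - 1)) := by ring
    _ = c * (p ^ r - 1) := by rw [← h]; simp

lemma Sg_pos (p : ℕ) {r : ℕ} [NeZero r] (hp : 0 < p) (d : ZMod r → ℕ) (i s : ZMod r)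
    (hs : 0 < d s) : 0 < Sg p d i := by
  unfold Sg
  have hmem : (s - i).val ∈ Finset.range r := Finset.mem_range.2 (ZMod.val_lt _)
  refine lt_of_lt_of_le ?_ (Finset.single_le_sum (f := fun t : ℕ => p ^ t * d (i + (t : ZMod r)))
    (fun _ _ => Nat.zero_le _) hmem)
  have : i + (((s - i).val : ℕ) : ZMod r) = s := by simp
  simp only [this]
  positivity

/-- The tuple of a digit sequence. -/
lemma tuple (p : ℕ) {r : ℕ} [NeZero r] (hp : 1 < p) (d : ZMod r → ℕ)
    (hd : (p ^ r - 1) ∣ ∑ s : ZMod r, d s * p ^ s.val) :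
    ∃ t : ZMod r → ℕ, (∀ i, Sg p d i = (p ^ r - 1) * t i) ∧
      (∀ i, d i + t i = p * t (i + 1)) := by
  have hr : r ≠ 0 := NeZero.ne r
  have hq : 1 < p ^ r := Nat.one_lt_pow hr hp
  have hcop : Nat.Coprime (p ^ r - 1) p := by
    have h1 : Nat.Coprime (p ^ r - 1) (p ^ r) := by
      have h0 : Nat.Coprime (p ^ r - 1) (p ^ r - 1 + 1) := by simp
      rwa [Nat.sub_add_cancel hq.le] at h0
    exact Nat.Coprime.coprime_dvd_right (dvd_pow_self p hr) h1
  have hrec : ∀ i, Sg p d i + (p ^ r - 1) * d i = p * Sg p d (i + 1) := by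
    intro i
    have h := Sg_rec p d i
    have h2 : p ^ r * d i = (p ^ r - 1) * d i + d i := by
      conv_lhs => rw [← Nat.sub_add_cancel hq.le]
      ring
    omega
  have hdiv : ∀ n : ℕ, (p ^ r - 1) ∣ Sg p d (n : ZMod r) := by
    intro n
    induction n with
    | zero => rw [Nat.cast_zero, Sg_zero]; exact hd
    | succ n ih =>
      have h1 : (p ^ r - 1) ∣ p * Sg p d ((n : ZMod r) + 1) := by
        rw [← hrec]
        exact dvd_add ih (dvd_mul_right _ _)
      have h2 := hcop.dvd_of_dvd_mul_left h1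
      rwa [Nat.cast_succ]
  have hdiv' : ∀ i : ZMod r, (p ^ r - 1) ∣ Sg p d i := by
    intro i
    have := hdiv i.val
    rwa [ZMod.natCast_zmod_val] at this
  refine ⟨fun i => Sg p d i / (p ^ r - 1), fun i => (Nat.mul_div_cancel' (hdiv' i)).symm,
    fun i => ?_⟩
  have h := hrec i
  have h1 := Nat.mul_div_cancel' (hdiv' i)
  have h2 := Nat.mul_div_cancel' (hdiv' (i + 1))
  have hpos : 0 < p ^ r - 1 := by omega
  apply Nat.eq_of_mul_eq_mul_left hpos
  calc (p ^ r - 1) * (d i + Sg p d i / (p ^ r - 1))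
      = (p ^ r - 1) * d i + (p ^ r - 1) * (Sg p d i / (p ^ r - 1)) := by ring
    _ = (p ^ r - 1) * d i + Sg p d i := by rw [h1]
    _ = p * Sg p d (i + 1) := by rw [← h]; ring
    _ = p * ((p ^ r - 1) * (Sg p d (i + 1) / (p ^ r - 1))) := by rw [h2]
    _ = (p ^ r - 1) * (p * (Sg p d (i + 1) / (p ^ r - 1))) := by ring

lemma exists_ld_pos {r : ℕ} (α : Ix r →₀ ℕ) (h : α ≠ 0) : ∃ s, 0 < ld α s := by
  obtain ⟨j, hj⟩ := Finsupp.ne_iff.1 h
  refine ⟨j.2, lt_of_lt_of_le (Nat.pos_of_ne_zero hj) ?_⟩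
  unfold ld
  exact Finset.single_le_sum (f := fun i : Fin 4 => α (i, j.2)) (fun _ _ => Nat.zero_le _)
    (Finset.mem_univ j.1)

lemma ld_revE (p : ℕ) {r : ℕ} [NeZero r] (β : Ix r →₀ ℕ) (hβ : ∀ j, β j < p) (s : ZMod r) :
    ld (revE p β) s + ld β s = 4 * (p - 1) := by
  unfold ld revE
  rw [← Finset.sum_add_distrib]
  have : ∀ i ∈ (Finset.univ : Finset (Fin 4)),
      (Finsupp.equivFunOnFinite.symm (fun j => p - 1 - β j) : Ix r →₀ ℕ) (i, s) + β (i, s) =
        p - 1 := by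
    intro i _
    have := hβ (i, s)
    simp only [Finsupp.equivFunOnFinite_symm_apply_apply]
    omega
  rw [Finset.sum_congr rfl this]
  simp

lemma mem_revP (p : ℕ) {r : ℕ} [NeZero r] {k : Type} [Field k] (P : MvPolynomial (Ix r) k)
    (α : Ix r →₀ ℕ) (h : α ∈ (revP p P).support) : ∃ β ∈ P.support, α = revE p β := by
  classical
  rw [MvPolynomial.mem_support_iff, revP, MvPolynomial.coeff_sum] at h
  obtain ⟨β, hβ, hne⟩ := Finset.exists_ne_zero_of_sum_ne_zero h
  rw [MvPolynomial.coeff_monomial] at hne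
  refine ⟨β, hβ, ?_⟩
  by_contra hcon
  exact hne (if_neg (fun h => hcon h.symm))

theorem tup (hTAY : TAYStmt) : TUPStmt := by
  classical
  intro p r _ _ k _ P hR h0 hinv hP
  have hp : 1 < p := (Fact.out : p.Prime).one_lt
  have hr : r ≠ 0 := NeZero.ne r
  have hq : 1 < p ^ r := Nat.one_lt_pow hr hp
  have hpos : 0 < p ^ r - 1 := by omega
  obtain ⟨-, -, -, -, -, -, -, hT8⟩ := hTAY r k
  have key : ∀ α ∈ P.support, ∃ β ∈ P.support, ∃ t u v : ZMod r → ℕ,
      (∀ i, Sg p (ld α) i = (p ^ r - 1) * t i) ∧ (∀ i, ld α i + t i = p * t (i + 1)) ∧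
      (∀ i, ld β i + v i = p * v (i + 1)) ∧
      (∀ i, t i + u i + v i = 4) ∧ (∀ i, 1 ≤ t i) ∧ (∀ i, 1 ≤ u i) ∧ (∀ i, 1 ≤ v i) := by
    intro α hα
    have hne : coeff α P ≠ 0 := MvPolynomial.mem_support_iff.1 hα
    have hα0 : α ≠ 0 := by
      rintro rfl; exact hne h0
    rw [hP, MvPolynomial.coeff_sum] at hne
    obtain ⟨κ, hκ, hκne⟩ := Finset.exists_ne_zero_of_sum_ne_zero hne
    obtain ⟨hκ1, hκ2, hκ3⟩ := Finset.mem_filter.1 hκ
    obtain ⟨α', hα', hld⟩ := hT8 κ (revP p P) α (MvPolynomial.mem_support_iff.2 hκne)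
    obtain ⟨β, hβ, rfl⟩ := mem_revP p P α' hα'
    have hβ0 : β ≠ 0 := by
      rintro rfl; exact (MvPolynomial.mem_support_iff.1 hβ) h0
    have hsum : ∀ s, ld α s + κ s + ld β s = 4 * (p - 1) := by
      intro s
      rw [← hld s]
      exact ld_revE p β (hR β hβ) s
    obtain ⟨t, ht1, ht2⟩ := tuple p hp (ld α) (hinv α hα)
    obtain ⟨u, hu1, hu2⟩ := tuple p hp (fun s => κ s) hκ3
    obtain ⟨v, hv1, hv2⟩ := tuple p hp (ld β) (hinv β hβ)
    refine ⟨β, hβ, t, u, v, ht1, ht2, hv2, ?_, ?_, ?_, ?_⟩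
    · intro i
      have e1 : Sg p (fun s => (ld α s + κ s) + ld β s) i = 4 * (p ^ r - 1) := by
        have : (fun s => (ld α s + κ s) + ld β s) = fun _ : ZMod r => 4 * (p - 1) :=
          funext hsum
        rw [this, Sg_const p (by omega)]
      rw [Sg_add p (fun s => ld α s + κ s) (ld β), Sg_add p (ld α) (fun s => κ s), ht1, hu1,
        hv1] at e1
      apply Nat.eq_of_mul_eq_mul_left hpos
      calc (p ^ r - 1) * (t i + u i + v i)
          = (p ^ r - 1) * t i + (p ^ r - 1) * u i + (p ^ r - 1) * v i := by ring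
        _ = 4 * (p ^ r - 1) := e1
        _ = (p ^ r - 1) * 4 := by ring
    · intro i
      obtain ⟨s, hs⟩ := exists_ld_pos α hα0
      have := Sg_pos p (by omega) (ld α) i s hs
      rw [ht1] at this
      exact Nat.pos_of_mul_pos_left this
    · intro i
      obtain ⟨s, hs⟩ := Finsupp.ne_iff.1 hκ2
      have := Sg_pos p (by omega) (fun s => κ s) i s (Nat.pos_of_ne_zero hs)
      rw [hu1] at this
      exact Nat.pos_of_mul_pos_left this
    · intro i
      obtain ⟨s, hs⟩ := exists_ld_pos β hβ0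
      have := Sg_pos p (by omega) (ld β) i s hs
      rw [hv1] at this
      exact Nat.pos_of_mul_pos_left this
  refine ⟨?_, ?_⟩
  · intro α hα
    obtain ⟨β, hβ, t, u, v, ht1, ht2, hv2, hs, h1, h2, h3⟩ := key α hα
    refine ⟨t, fun i => ?_, ht2⟩
    have a := hs i
    have b := h1 i
    have c := h2 i
    have d := h3 i
    omega
  · intro hno α hα hall
    obtain ⟨β, hβ, t, u, v, ht1, ht2, hv2, hs, h1, h2, h3⟩ := key α hα
    have ht : ∀ i, t i = 2 := by
      intro i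
      have e1 : Sg p (ld α) i = 2 * (p ^ r - 1) := by
        have : ld α = fun _ : ZMod r => 2 * (p - 1) := funext hall
        rw [this, Sg_const p (by omega)]
      rw [ht1] at e1
      apply Nat.eq_of_mul_eq_mul_left hpos
      rw [e1]; ring
    have hv : ∀ i, v i = 1 := by
      intro i
      have a := hs i
      have b := ht i
      have c := h2 i
      have d := h3 i
      omega
    refine hno β hβ fun i => ?_
    have := hv2 i
    rw [hv i, hv (i + 1)] at this
    omega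

end Pool.Agent.HK.H54
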